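import Pool.Agent.Lib.MP_1df74f_al.Core

/-!
Generalized robustness of toric ideals is inherited under elimination of variables.
-/

set_option autoImplicit false

namespace Pool.Agent.Results.MP_1df74f_al.Inherited

open Pool.Agent.Lib.MP_1df74f_al

/-- The toric ideal `I_A` of a family `a` of vectors of `ℤ^d`: the kernel of the `k`-algebra map
`x_i ↦ t^(a i)` into the Laurent polynomial ring, i.e. the group algebra of `ℤ^d`. -/
noncomputable def toricIdeal (k : Type*) [Field k] {σ : Type} {d : ℕ} (a : σ → Fin d → ℤ) :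
    Ideal (MvPolynomial σ k) :=
  RingHom.ker (MvPolynomial.aeval (fun i => AddMonoidAlgebra.single (a i) 1) :
    MvPolynomial σ k →ₐ[k] AddMonoidAlgebra k (Fin d → ℤ))

/-- the degree homomorphism -/
noncomputable def degHom {σ : Type} {d : ℕ} (a : σ → Fin d → ℤ) : (σ →₀ ℕ) →+ (Fin d → ℤ) :=
  (Finsupp.linearCombination ℕ a).toAddMonoidHom

theorem degHom_single {σ : Type} {d : ℕ} (a : σ → Fin d → ℤ) (i : σ) :
    degHom a (Finsupp.single i 1) = a i := by
  show Finsupp.linearCombination ℕ a (Finsupp.single i 1) = a i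
  rw [Finsupp.linearCombination_single, one_smul]

theorem toricIdeal_eq (k : Type*) [Field k] {σ : Type} {d : ℕ} (a : σ → Fin d → ℤ) :
    toricIdeal k a = toricI k (degHom a) := by
  have h : (MvPolynomial.aeval (fun i => AddMonoidAlgebra.single (a i) 1) :
      MvPolynomial σ k →ₐ[k] AddMonoidAlgebra k (Fin d → ℤ)) =
      AddMonoidAlgebra.mapDomainAlgHom k k (degHom a) := by
    apply MvPolynomial.algHom_ext
    intro i
    rw [MvPolynomial.aeval_X]
    have : AddMonoidAlgebra.mapDomainAlgHom k k (degHom a) (MvPolynomial.X i) =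
        AddMonoidAlgebra.single (degHom a (Finsupp.single i 1)) 1 :=
      AddMonoidAlgebra.mapDomain_single
    rw [this, degHom_single]
  unfold toricIdeal toricI
  rw [h]
  rfl

/-- integral weights from a rational functional -/
theorem exists_weight {σ : Type} {d : ℕ} (a : σ → Fin d → ℤ) (w : Fin d → ℚ)
    (hw : ∀ i, 0 < ∑ j, w j * (a i j : ℚ)) :
    ∃ wt : (σ →₀ ℕ) →+ ℕ, (∀ u v, degHom a u = degHom a v → wt u = wt v) ∧
      ∀ u, wt u = 0 → u = 0 := by
  -- clear denominators
  obtain ⟨N, hN, z, hz⟩ : ∃ N : ℕ, 0 < N ∧ ∃ z : Fin d → ℤ, ∀ j, (z j : ℚ) = N * w j := by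
    refine ⟨∏ j, (w j).den, Finset.prod_pos (fun j _ => (w j).den_pos), ?_⟩
    have : ∀ j, ∃ z : ℤ, (z : ℚ) = ((∏ j, (w j).den : ℕ) : ℚ) * w j := by
      intro j
      obtain ⟨c, hc⟩ := Finset.dvd_prod_of_mem (fun j => (w j).den) (Finset.mem_univ j)
      refine ⟨c * (w j).num, ?_⟩
      rw [hc]
      push_cast
      have := Rat.mul_den_eq_num (w j)
      rw [← this]
      ring
    exact ⟨fun j => (this j).choose, fun j => (this j).choose_spec⟩
  let W : (Fin d → ℤ) →+ ℤ :=
    { toFun := fun x => ∑ j, z j * x j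
      map_zero' := by simp
      map_add' := fun x y => by simp [mul_add, Finset.sum_add_distrib] }
  have hW : ∀ i, 0 < W (a i) := by
    intro i
    have h1 : ((W (a i) : ℤ) : ℚ) = N * ∑ j, w j * (a i j : ℚ) := by
      show ((∑ j, z j * a i j : ℤ) : ℚ) = _
      push_cast
      rw [Finset.mul_sum]
      refine Finset.sum_congr rfl (fun j _ => ?_)
      rw [hz j]; ring
    have h2 : (0 : ℚ) < ((W (a i) : ℤ) : ℚ) := by
      rw [h1]
      exact mul_pos (by exact_mod_cast hN) (hw i)
    exact_mod_cast h2
  let wt : (σ →₀ ℕ) →+ ℕ :=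
    (Finsupp.linearCombination ℕ (fun i => (W (a i)).toNat)).toAddMonoidHom
  have hwt1 : ∀ i, wt (Finsupp.single i 1) = (W (a i)).toNat := by
    intro i
    show Finsupp.linearCombination ℕ (fun i => (W (a i)).toNat) (Finsupp.single i 1) = _
    rw [Finsupp.linearCombination_single, one_smul]
  have hwt2 : ∀ u, ((wt u : ℕ) : ℤ) = W (degHom a u) := by
    have : (Nat.castAddMonoidHom ℤ).comp wt = W.comp (degHom a) := by
      apply Finsupp.addHom_ext'
      intro i
      ext
      simp only [AddMonoidHom.comp_apply, Finsupp.singleAddHom_apply, Nat.coe_castAddMonoidHom]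
      rw [hwt1, degHom_single, Int.toNat_of_nonneg (hW i).le]
    exact fun u => DFunLike.congr_fun this u
  refine ⟨wt, fun u v huv => ?_, fun u hu => ?_⟩
  · have : ((wt u : ℕ) : ℤ) = wt v := by rw [hwt2, hwt2, huv]
    exact_mod_cast this
  · ext i
    by_contra hi
    have hle : Finsupp.single i 1 ≤ u := by
      rw [Finsupp.single_le_iff]
      have : u i ≠ 0 := hi
      omega
    obtain ⟨t, rfl⟩ := exists_add_of_le hle
    rw [map_add, hwt1] at hu
    have := hW i
    omega

/-- **Generalized robustness is inherited.**  Let `a : σ → ℤ^d` be a finite family of vectors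
lying in an open half space, and let `e : τ ↪ σ` select a subfamily.  If the toric ideal of `a` is
generalized robust (its universal Groebner basis equals its universal Markov basis), then so is the
toric ideal of the subfamily. -/
theorem result (k : Type*) [Field k] (d : ℕ) (σ τ : Type) [Finite σ] [Finite τ]
    (a : σ → Fin d → ℤ) (w : Fin d → ℚ) (hw : ∀ i, 0 < ∑ j, w j * (a i j : ℚ)) (e : τ ↪ σ)
    (h : IsGeneralizedRobust (toricIdeal k a)) :
    IsGeneralizedRobust (toricIdeal k (fun i => a (e i))) := by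
  obtain ⟨wt, hAwt, hwt⟩ := exists_weight a w hw
  rw [toricIdeal_eq] at h ⊢
  have hcomp : degHom (fun i => a (e i)) = (degHom a).comp (ext0 e) := by
    apply Finsupp.addHom_ext'
    intro i
    ext1
    show degHom (fun i => a (e i)) (Finsupp.single i 1) = degHom a (ext0 e (Finsupp.single i 1))
    have : ext0 e (Finsupp.single i 1) = Finsupp.single (e i) 1 := Finsupp.mapDomain_single
    rw [this, degHom_single, degHom_single]
  rw [hcomp]
  exact isGeneralizedRobust_comp hAwt hwt h

end Pool.Agent.Results.MP_1df74f_al.Inherited
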